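import Mathlib
import Pool.Agent.NH83.EP.Main
import Pool.Agent.NH83.DE.Eul
import Pool.Agent.NH83.DE.DS
import Pool.Agent.NH83.DE.BE

/-!
# MP_a57f33_nt: relations in families with even constant arguments follow from the double shuffle relations

A pattern is a pair `(u, v)` of a list `u` of positive even numbers and a list `v` of letters `(a, b)`, the first of which
has `a ≥ 1`; `v` may be empty. Its value at `n`, in a family `Z`, is the sum of `Z(t, a_1 n + b_1, ..., a_r n + b_r)` over
all `|u|!` rearrangements `t` of `u`. Examples: `u = {2, ..., 2}` (`m` times) gives `m! ζ(2, ..., 2, n + 1, ...)`,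
`u = (2, 4)` gives `ζ(2, 4, n) + ζ(4, 2, n)`, `v = ∅`, `u = (2 j)` gives `ζ(2 j)`.

If a polynomial `f` of bounded degree with integer coefficients of absolute value at most `C ^ n` vanishes at the values of
the patterns `w_1, ..., w_k` at `n`, `n` large, for the motivic multiple zeta values, or if only its real period has
absolute value at most `B ^ (-n)`, then `f` of the words of these patterns, at all `n' ≥ 2`, lies in the ideal generated by
the double shuffle relations (stuffle and shuffle product of admissible indices, and Hoffman's relations, which are the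
regularized double shuffle relations with one divergent factor `y_1`).
-/

set_option autoImplicit false

namespace Pool.Agent.Results.MP_a57f33_nt.EvenConstantFamilies

/-- `trunc [s_1, ..., s_r] m` is the sum of `∏ k_i ^ (-s_i)` over `m > k_1 > ... > k_r ≥ 1` -/
noncomputable def trunc : List ℕ → ℕ → ℝ
  | [], _ => 1
  | s :: l, m => ∑ j ∈ Finset.Ico 1 m, trunc l j / (j : ℝ) ^ s

/-- the multiple zeta value `ζ(s_1, ..., s_r)`, `s_1` belongs to the largest variable -/
noncomputable def mzv : List ℕ → ℝ
  | [] => 1
  | s :: l => ∑' k : ℕ, trunc l (k + 1) / ((k + 1 : ℕ) : ℝ) ^ s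

/-- admissible indices: all entries are at least one, the first one is at least two; the empty index is admissible -/
def AdmissibleIndex (l : List ℕ) : Prop := (∀ a ∈ l, 1 ≤ a) ∧ ∀ a t, l = a :: t → 2 ≤ a

/-- the word `y_{k_1} ... y_{k_t}`, where `y_k = x₀ ^ (k - 1) x₁`, `x₀ = false`, `x₁ = true` -/
def word : List ℕ → List Bool
  | [] => []
  | k :: l => List.replicate (k - 1) false ++ true :: word l

/-- the list of the shuffles of two words -/
def shuffles : List Bool → List Bool → List (List Bool)
  | [], v => [v]
  | a :: u, [] => [a :: u]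
  | a :: u, b :: v => (shuffles u (b :: v)).map (a :: ·) ++ (shuffles (a :: u) v).map (b :: ·)
termination_by u v => u.length + v.length

/-- the list of the indices in the stuffle (series) product of two indices -/
def stuffles : List ℕ → List ℕ → List (List ℕ)
  | [], l => [l]
  | i :: k, [] => [i :: k]
  | i :: k, j :: l => (stuffles k (j :: l)).map (i :: ·) ++ (stuffles (i :: k) l).map (j :: ·) ++
      (stuffles k l).map ((i + j) :: ·)
termination_by k l => k.length + l.length

/-- the polynomial ring over `ℚ` with one variable for each word -/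
abbrev Words : Type := MvPolynomial (List Bool) ℚ

/-- the formal multiple zeta value of an index: the variable of its word -/
noncomputable def formal (l : List ℕ) : Words := MvPolynomial.X (word l)

/-- the double shuffle relations: the empty word is `1`, the stuffle and the shuffle product of two admissible indices, and
Hoffman's relations `y_1 sh v = y_1 * v` for the words `v` of admissible indices -/
def relations : Set Words :=
  {p | p = formal [] - 1 ∨
    (∃ k l, AdmissibleIndex k ∧ AdmissibleIndex l ∧
      p = formal k * formal l - ((stuffles k l).map formal).sum) ∨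
    (∃ k l, AdmissibleIndex k ∧ AdmissibleIndex l ∧
      p = formal k * formal l - ((shuffles (word k) (word l)).map MvPolynomial.X).sum) ∨
    ∃ l, AdmissibleIndex l ∧
      p = ((shuffles [true] (word l)).map MvPolynomial.X).sum - ((stuffles [1] l).map formal).sum}

/-- the ideal of the double shuffle relations -/
noncomputable def DoubleShuffle : Ideal Words := Ideal.span relations

/-- patterns: `u` is a list of positive even numbers, the letter `(0, 0)` does not occur in `v`, and the first letter
`(a, b)` of `v`, if there is one, has `a ≥ 1` -/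
def Pattern (w : List ℕ × List (ℕ × ℕ)) : Prop :=
  (∀ a ∈ w.1, Even a ∧ 1 ≤ a) ∧ (∀ x ∈ w.2, x ≠ (0, 0)) ∧ ∀ x l, w.2 = x :: l → 1 ≤ x.1

/-- the index with the arguments `a n + b` -/
def index (n : ℕ) (v : List (ℕ × ℕ)) : List ℕ := v.map fun x => x.1 * n + x.2

/-- the value of a pattern `(u, v)` at `n`: the sum of `Z(t, a_1 n + b_1, ..., a_r n + b_r)` over all `|u|!` rearrangements
`t` of `u` -/
def value {A : Type} [AddCommMonoid A] (Z : List ℕ → A) (n : ℕ) (w : List ℕ × List (ℕ × ℕ)) : A :=
  (w.1.permutations.map fun t => Z (t ++ index n w.2)).sum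

open Pool.Agent.NH83.EP
open Pool.Agent.TH507.WG (HP OK ar)

lemma trunc_eq : ∀ l m, trunc l m = Pool.Agent.TH507.WD.hr l m := by
  intro l
  induction l with
  | nil => intro m; rw [trunc, Pool.Agent.TH507.WD.hr]
  | cons s l ih =>
    intro m
    rw [trunc, Pool.Agent.TH507.WD.hr]
    exact Finset.sum_congr rfl fun j _ => by rw [ih]

lemma mzv_eq : mzv = Pool.Agent.TH507.WD.mz := by
  funext l
  cases l with
  | nil => rw [mzv, Pool.Agent.TH507.WD.mz]
  | cons s l =>
    rw [mzv, Pool.Agent.TH507.WD.mz]
    exact tsum_congr fun k => by rw [trunc_eq]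

lemma stuffles_eq : ∀ k l, stuffles k l = Pool.Agent.TH507.DS.stI k l := by
  intro k l
  induction k, l using Pool.Agent.TH507.DS.stI.induct with
  | case1 l => rw [stuffles, Pool.Agent.TH507.DS.stI]
  | case2 i k => rw [stuffles, Pool.Agent.TH507.DS.stI]
  | case3 i k j l ih1 ih2 ih3 => rw [stuffles, Pool.Agent.TH507.DS.stI, ih1, ih2, ih3]

lemma word_eq : ∀ l, Pool.Agent.NH83.DE.word l = word l := by
  intro l
  induction l with
  | nil => rfl
  | cons k l ih => rw [word, Pool.Agent.NH83.DE.word, ih]

lemma shuffles_eq : ∀ u v, Pool.Agent.NH83.DE.sh u v = shuffles u v := by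
  intro u v
  induction u, v using Pool.Agent.NH83.DE.sh.induct with
  | case1 v => rw [shuffles, Pool.Agent.NH83.DE.sh]
  | case2 a u => rw [shuffles, Pool.Agent.NH83.DE.sh]
  | case3 a u b v ih1 ih2 => rw [shuffles, Pool.Agent.NH83.DE.sh, ih1, ih2]

/-- the constant letters of a pattern -/
def cst (u : List ℕ) : List (ℕ × ℕ) := u.map fun b => ((0 : ℕ), b)

lemma value_eq {A : Type} [CommRing A] (Z : List ℕ → A) (n : ℕ) (w : List ℕ × List (ℕ × ℕ)) :
    value Z n w = sy (fun v => Z (ar n v)) (cst w.1, w.2) := by
  rw [value, sy, permS_eq, cst, ← List.map_permutations', List.map_map]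
  refine ((List.permutations_perm_permutations' w.1).map _).sum_eq.trans ?_
  congr 1
  refine List.map_congr_left fun t _ => ?_
  have h1 : (t.map fun b => ((0 : ℕ), b)).map (fun x : ℕ × ℕ => x.1 * n + x.2) = t := by
    rw [List.map_map]
    conv_rhs => rw [← List.map_id t]
    refine List.map_congr_left fun b _ => ?_
    simp
  simp only [Function.comp, ar, List.map_append, index]
  rw [h1]

lemma good_of {w : List ℕ × List (ℕ × ℕ)} (h : Pattern w) : Good (cst w.1, w.2) := by
  refine ⟨fun x hx => ?_, ?_, fun x hx hx0 => ?_⟩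
  · rw [cst, List.mem_map] at hx
    obtain ⟨a, ha, rfl⟩ := hx
    obtain ⟨h1, h2⟩ := h.1 a ha
    refine ⟨rfl, h1, ?_⟩
    obtain ⟨c, hc⟩ := h1
    simp only
    omega
  · cases hv : w.2 with
    | nil => trivial
    | cons x l => exact h.2.2 x l hv
  · have h1 := h.2.1 x hx
    by_contra hcon
    exact h1 (Prod.ext hx0 (by simp only; omega))

/-! ### the quotient by the double shuffle relations -/

/-- the class of a word -/
noncomputable def cl (w : List Bool) : Words ⧸ DoubleShuffle := Ideal.Quotient.mk DoubleShuffle (MvPolynomial.X w)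

lemma mk_zero {p : Words} (h : p ∈ relations) : Ideal.Quotient.mk DoubleShuffle p = 0 :=
  Ideal.Quotient.eq_zero_iff_mem.2 (Ideal.subset_span h)

lemma mk_sum {α : Type} (L : List α) (g : α → Words) :
    Ideal.Quotient.mk DoubleShuffle (L.map g).sum = (L.map fun a => Ideal.Quotient.mk DoubleShuffle (g a)).sum := by
  rw [map_list_sum, List.map_map]
  rfl

lemma cl_one : cl [] = 1 := by
  have h := mk_zero (p := formal [] - 1) (Or.inl rfl)
  rw [map_sub, map_one, sub_eq_zero] at h
  exact h

lemma cl_st {k l : List ℕ} (hk : AdmissibleIndex k) (hl : AdmissibleIndex l) :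
    cl (word k) * cl (word l) = ((stuffles k l).map fun m => cl (word m)).sum := by
  have h := mk_zero (Or.inr (Or.inl ⟨k, l, hk, hl, rfl⟩))
  rw [map_sub, map_mul, mk_sum, sub_eq_zero] at h
  exact h

lemma cl_sh {k l : List ℕ} (hk : AdmissibleIndex k) (hl : AdmissibleIndex l) :
    cl (word k) * cl (word l) = ((shuffles (word k) (word l)).map cl).sum := by
  have h := mk_zero (Or.inr (Or.inr (Or.inl ⟨k, l, hk, hl, rfl⟩)))
  rw [map_sub, map_mul, mk_sum, sub_eq_zero] at h
  exact h

lemma cl_ho {l : List ℕ} (hl : AdmissibleIndex l) :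
    ((shuffles [true] (word l)).map cl).sum = ((stuffles [1] l).map fun m => cl (word m)).sum := by
  have h := mk_zero (Or.inr (Or.inr (Or.inr ⟨l, hl, rfl⟩)))
  rw [map_sub, mk_sum, mk_sum, sub_eq_zero] at h
  exact h

lemma adm_one {r : ℕ} (hr : 2 ≤ r) : AdmissibleIndex [r] := by
  refine ⟨fun a ha => ?_, fun a t h => ?_⟩
  · rw [List.mem_singleton] at ha
    omega
  · rw [List.cons.injEq] at h
    omega

lemma cl_euler (j : ℕ) (hj : 1 ≤ j) : cl (word [2 * j]) = er j • cl (word [2]) ^ j := by
  have h := Pool.Agent.NH83.DE.euler Pool.Agent.NH83.DE.t_DS Pool.Agent.NH83.DE.t_BE cl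
    (fun r s hr hs => by
      simp only [word_eq]
      rw [cl_st (adm_one hr) (adm_one hs)]
      simp [stuffles, add_assoc])
    (fun r s hr hs => by
      simp only [word_eq, shuffles_eq]
      exact cl_sh (adm_one hr) (adm_one hs))
    (fun r hr => by
      simp only [word_eq, shuffles_eq]
      rw [cl_ho (adm_one hr)]
      simp [stuffles, add_assoc, add_comm 1 r]) j hj
  simp only [word_eq] at h
  rw [h, Pool.Agent.NH83.DE.eu_unique j hj (er j) (er_spec j hj)]

lemma cl_EF {n : ℕ} (hn : 2 ≤ n) : EF er fun v => cl (word (ar n v)) := by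
  have h1 : Pool.Agent.Q217.MZ.StI fun l => cl (word l) :=
    ⟨cl_one, fun k l hk hl => by rw [cl_st hk hl, stuffles_eq]⟩
  refine ⟨(Pool.Agent.Q217.MZ.StF_of_StI h1 hn).one, (Pool.Agent.Q217.MZ.StF_of_StI h1 hn).mul, fun j hj => ?_⟩
  simp only [ar, List.map_cons, List.map_nil, zero_mul, zero_add]
  exact cl_euler j hj

/-! ### periods -/

lemma hom_aeval {k : ℕ} {M N : Type} [CommRing M] [CommRing N] [Algebra ℤ M] [Algebra ℤ N] (φ : M →+* N) (g : Fin k → M)
    (f : MvPolynomial (Fin k) ℤ) : φ (MvPolynomial.aeval g f) = MvPolynomial.aeval (fun i => φ (g i)) f := by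
  induction f using MvPolynomial.induction_on with
  | C a => simp
  | add p q hp hq => rw [map_add, map_add, map_add, hp, hq]
  | mul_X p i hp => rw [map_mul, map_mul, map_mul, hp, MvPolynomial.aeval_X, MvPolynomial.aeval_X]

lemma adm_value {w : List ℕ × List (ℕ × ℕ)} (hw : Pattern w) {n : ℕ} (hn : 2 ≤ n) {t : List ℕ}
    (ht : t ∈ w.1.permutations) : AdmissibleIndex (t ++ index n w.2) := by
  have hp : t.Perm w.1 := List.mem_permutations.1 ht
  have h1 : ∀ a ∈ t, 2 ≤ a := by
    intro a ha
    obtain ⟨⟨c, hc⟩, h2⟩ := hw.1 a (hp.mem_iff.1 ha)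
    omega
  have h2 : ∀ a ∈ index n w.2, 1 ≤ a := by
    intro a ha
    rw [index, List.mem_map] at ha
    obtain ⟨x, hx, rfl⟩ := ha
    have h3 := hw.2.1 x hx
    rcases Nat.eq_zero_or_pos x.1 with h0 | h0
    · rcases Nat.eq_zero_or_pos x.2 with h4 | h4
      · exact absurd (Prod.ext h0 h4) h3
      · omega
    · have := Nat.mul_le_mul h0 hn
      omega
  refine ⟨fun a ha => ?_, fun a s h => ?_⟩
  · rcases List.mem_append.1 ha with ha | ha
    · have := h1 a ha
      omega
    · exact h2 a ha
  · cases t with
    | nil =>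
      rw [List.nil_append] at h
      cases hv : w.2 with
      | nil => rw [hv] at h; simp [index] at h
      | cons x l =>
        rw [hv, index, List.map_cons, List.cons.injEq] at h
        have h5 := hw.2.2 x l hv
        have := Nat.mul_le_mul h5 hn
        omega
    | cons b t =>
      rw [List.cons_append, List.cons.injEq] at h
      rw [← h.1]
      exact h1 b (List.mem_cons_self)

lemma per_value {M : Type} [CommRing M] (ζm : List ℕ → M) (per : M →+* ℝ)
    (hper : ∀ l, AdmissibleIndex l → per (ζm l) = mzv l) {w : List ℕ × List (ℕ × ℕ)} (hw : Pattern w) {n : ℕ}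
    (hn : 2 ≤ n) : per (value ζm n w) = value mzv n w := by
  rw [value, value, map_list_sum, List.map_map]
  congr 1
  refine List.map_congr_left fun t ht => ?_
  exact hper _ (adm_value hw hn ht)

/-- **Theorem.** Let `w_1, ..., w_k` be patterns and `D ≥ 0`. There are `B, C > 1` and `n0` such that for all `n ≥ n0` and
all integer polynomials `f` of degree at most `D` with coefficients of absolute value at most `C ^ n`: let `M` be a
commutative ring with elements `ζm l` for the indices `l` and a homomorphism `per` to the real numbers with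
`per (ζm l) = ζ(l)` for admissible `l` (such as the motivic multiple zeta values with the period map, or `M = ℝ`); if the
period of `f` at the values of `w_1, ..., w_k` at `n` in `M` has absolute value at most `B ^ (-n)` (in particular if `f`
vanishes there), then, for all `n' ≥ 2`, `f` of the formal values at `n'` is in the ideal of the double shuffle relations. -/
theorem result {k : ℕ} (w : Fin k → List ℕ × List (ℕ × ℕ)) (hw : ∀ i, Pattern (w i)) (D : ℕ) :
    ∃ B C : ℝ, 1 < B ∧ 1 < C ∧ ∃ n0 : ℕ, ∀ n : ℕ, n0 ≤ n → ∀ f : MvPolynomial (Fin k) ℤ, f.totalDegree ≤ D →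
      (∀ m, |((f.coeff m : ℤ) : ℝ)| ≤ C ^ n) →
      ∀ (M : Type) [CommRing M] (ζm : List ℕ → M) (per : M →+* ℝ),
        (∀ l, AdmissibleIndex l → per (ζm l) = mzv l) →
        |per (MvPolynomial.aeval (fun i => value ζm n (w i)) f)| ≤ (B ^ n)⁻¹ →
        ∀ n' : ℕ, 2 ≤ n' → MvPolynomial.aeval (fun i => value formal n' (w i)) f ∈ DoubleShuffle := by
  obtain ⟨B, C, hB, hC, n0, h⟩ := main D (fun i => (cst (w i).1, (w i).2)) fun i => good_of (hw i)
  refine ⟨B, C, hB, hC, n0 + 2, fun n hn f hf hc M _ ζm per hper hsmall n' hn' => ?_⟩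
  rw [hom_aeval] at hsmall
  have h1 := h n (by omega) f hf hc (by
    have e : (fun i => per (value ζm n (w i))) =
        fun i => sy (fun v => Pool.Agent.TH507.WD.mz (ar n v)) (cst (w i).1, (w i).2) := by
      funext i
      rw [per_value ζm per hper (hw i) (by omega), value_eq, mzv_eq]
    rwa [e] at hsmall)
  refine Ideal.Quotient.eq_zero_iff_mem.1 ?_
  have e : (fun i => Ideal.Quotient.mk DoubleShuffle (value formal n' (w i))) =
      fun i => sy (fun v => cl (word (ar n' v))) (cst (w i).1, (w i).2) := by
    funext i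
    rw [← value_eq (fun l => cl (word l)), value, value, mk_sum]
    rfl
  have h2 := h1 _ _ (cl_EF hn')
  rw [← e] at h2
  rw [← h2]
  exact hom_aeval (Ideal.Quotient.mk DoubleShuffle) _ f

end Pool.Agent.Results.MP_a57f33_nt.EvenConstantFamilies
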